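import Pool.Agent.Helper71.QBUDefs
import Pool.Agent.Helper71.QBU4

/-!
The type 1 noncommutative Borsuk–Ulam conjecture (Q1) is false, already for commutative `A`, `H`:
`A = C(X)` with `X` a countable product of 3-spheres and `H = C(G)` with `G` the group of 2-adic
integers, acting on the `j`-th sphere through the character of order `2 ^ (2 ^ j)`.
-/

namespace Pool.Agent.Results.MP_90d4f1_an.TypeOneFails

open Pool.Agent.Helper71.QBU

/-- The negated form of Q1, with `A` and `H` commutative. -/
theorem result : ∃ (G : CompactQuantumGroup) (A : Alg) (α : Coaction G A),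
    G.NonTrivial ∧ Nontrivial A.carrier ∧ α.Free ∧
    (∃ φ : Hom A (paths α.AH.alg), (∀ a, φ a ∈ α.join) ∧ α.Equivariant φ) ∧
    (∀ h k : G.H.carrier, h * k = k * h) ∧ ∀ a b : A.carrier, a * b = b * a :=
  main

end Pool.Agent.Results.MP_90d4f1_an.TypeOneFails
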